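import Pool.Agent.H2.Dow

set_option autoImplicit false

namespace Pool.Agent.Results.MP_f51a11_co.DowlingNotExtremal

/-- `v` over GF(p) and `w` over GF(q) represent the same simple matroid of rank `n` on `m` points. -/
def Conf (p q n m : ℕ) (v : Fin m → Fin n → ZMod p) (w : Fin m → Fin n → ZMod q) : Prop :=
  (∀ S : Finset (Fin m),
    (LinearIndependent (ZMod p) (fun x : S => v (x : Fin m)) ↔
      LinearIndependent (ZMod q) (fun x : S => w (x : Fin m)))) ∧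
  (∀ S : Finset (Fin m), S.card ≤ 2 → LinearIndependent (ZMod p) (fun x : S => v (x : Fin m))) ∧
  Submodule.span (ZMod p) (Set.range v) = ⊤

/-- The size function `h(L(p) ∩ L(q); n)`. -/
noncomputable def h (p q n : ℕ) : ℕ := sSup {m : ℕ | ∃ v w, Conf p q n m v w}

/-- The points of the Dowling matroid `Q_n(C_g)` over GF(p). -/
def DIdx (p g n : ℕ) : Type :=
  Fin n ⊕ ({t : Fin n × Fin n // t.1 < t.2} × {ω : ZMod p // ω ^ g = 1})

/-- The vectors `e_i` and `e_i - ω e_j` representing `Q_n(C_g)` over GF(p). -/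
def dow (p g n : ℕ) : DIdx p g n → Fin n → ZMod p
  | .inl i => Pi.single i 1
  | .inr (t, ω) => Pi.single t.1.1 1 - ω.1 • Pi.single t.1.2 1

/-- The matroid represented by `v` is isomorphic to `Q_n(C_g)`. -/
def IsDowling (p g n m : ℕ) (v : Fin m → Fin n → ZMod p) : Prop :=
  ∃ e : Fin m ≃ DIdx p g n, ∀ S : Finset (Fin m),
    (LinearIndependent (ZMod p) (fun x : S => v (x : Fin m)) ↔
      LinearIndependent (ZMod p) (fun x : S => dow p g n (e (x : Fin m))))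

theorem bdd (p q n : ℕ) (hp : p.Prime) : BddAbove {m : ℕ | ∃ v w, Conf p q n m v w} := by
  have := Fact.mk hp
  refine ⟨Fintype.card (Fin n → ZMod p), ?_⟩
  rintro m ⟨v, w, -, h2, -⟩
  have hv : Function.Injective v := by
    intro a b hab
    have := (h2 {a, b} (Finset.card_le_two)).injective
      (a₁ := ⟨a, by simp⟩) (a₂ := ⟨b, by simp⟩) hab
    exact congrArg Subtype.val this
  simpa using Fintype.card_le_of_injective v hv

theorem lower (p q n : ℕ) (hp : p.Prime) (hq : q.Prime) (h5 : 5 ≤ p) (h5' : 5 ≤ q) (hn : 1 ≤ n) :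
    n ^ 2 + 2 * (n - 1) ∈ {m : ℕ | ∃ v w, Conf p q n m v w} := by
  obtain ⟨k, rfl⟩ : ∃ k, n = k + 1 := ⟨n - 1, by omega⟩
  have := Fact.mk hp
  have := Fact.mk hq
  exact Pool.Agent.H2.Dow.family p q h5 h5' k

theorem pairs (n : ℕ) : 2 * Fintype.card {t : Fin n × Fin n // t.1 < t.2} + n ≤ n ^ 2 := by
  have := Fintype.card_le_of_injective
    (fun x : ({t : Fin n × Fin n // t.1 < t.2} ⊕ {t : Fin n × Fin n // t.1 < t.2}) ⊕ Fin n =>
      (match x with
        | .inl (.inl t) => t.1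
        | .inl (.inr t) => t.1.swap
        | .inr i => (i, i) : Fin n × Fin n)) (by
    rintro ((⟨⟨a, b⟩, (h1 : a < b)⟩ | ⟨⟨a, b⟩, (h1 : a < b)⟩) | a)
      ((⟨⟨c, d⟩, (h2 : c < d)⟩ | ⟨⟨c, d⟩, (h2 : c < d)⟩) | c) e <;>
      obtain ⟨e1, e2⟩ := Prod.mk.inj e <;> first
        | (subst e1 e2; rfl)
        | (subst e1; rfl)
        | (exfalso; clear e; simp only [Fin.ext_iff, Fin.lt_def] at *; omega))
  simp only [Fintype.card_sum, Fintype.card_prod, Fintype.card_fin] at this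
  nlinarith

theorem result :
    (∀ p q n : ℕ, p.Prime → q.Prime → 5 ≤ p → 5 ≤ q → 1 ≤ n → n ^ 2 + 2 * (n - 1) ≤ h p q n) ∧
    ¬ (∀ p q : ℕ, p.Prime → q.Prime → p ≠ q → ∃ N : ℕ, ∀ n : ℕ, N ≤ n →
      ∀ (v : Fin (h p q n) → Fin n → ZMod p) (w : Fin (h p q n) → Fin n → ZMod q),
        Conf p q n (h p q n) v w → IsDowling p (Nat.gcd (p - 1) (q - 1)) n (h p q n) v) := by
  refine ⟨fun p q n hp hq h5 h5' hn => le_csSup (bdd p q n hp) (lower p q n hp hq h5 h5' hn), ?_⟩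
  intro H
  obtain ⟨N, hN⟩ := H 5 7 (by norm_num) (by norm_num) (by norm_num)
  have hl := lower 5 7 (N + 2) (by norm_num) (by norm_num) le_rfl (by norm_num) (by omega)
  have hb := bdd 5 7 (N + 2) (by norm_num)
  have h1 : (N + 2) ^ 2 + 2 * (N + 2 - 1) ≤ h 5 7 (N + 2) := le_csSup hb hl
  obtain ⟨v, w, hvw⟩ : h 5 7 (N + 2) ∈ {m : ℕ | ∃ v w, Conf 5 7 (N + 2) m v w} :=
    Nat.sSup_mem ⟨_, hl⟩ hb
  obtain ⟨e, -⟩ := hN (N + 2) (by omega) v w hvw
  have h2 : h 5 7 (N + 2) = Fintype.card (Fin (N + 2) ⊕ ({t : Fin (N + 2) × Fin (N + 2) // t.1 < t.2}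
      × {ω : ZMod 5 // ω ^ Nat.gcd (5 - 1) (7 - 1) = 1})) := by
    rw [← Fintype.card_fin (h 5 7 (N + 2))]
    exact Fintype.card_congr e
  have h3 : Fintype.card {ω : ZMod 5 // ω ^ Nat.gcd (5 - 1) (7 - 1) = 1} = 2 := by decide
  rw [Fintype.card_sum, Fintype.card_prod, h3, Fintype.card_fin] at h2
  have h4 := pairs (N + 2)
  omega

end Pool.Agent.Results.MP_f51a11_co.DowlingNotExtremal
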